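import Pool.Agent.Q85.VL.Defs
import Pool.Agent.Q151.CC.Step

/-! Project VL (helper85), part VL-2: the flux is bounded by the integral of `f`. -/

set_option autoImplicit false

open MeasureTheory Set Metric Filter Topology
open scoped ContDiff
open H459R3.NS Pool.Agent.W268.NS Pool.Agent.Q67.VD

namespace Pool.Agent.Q129.VL

open Pool.Agent.Q85.CC Pool.Agent.Q85.CL Pool.Agent.Q151.CC Pool.Agent.Q85.VL

lemma len_smul' (t : ℝ) (n : V) : len (t • n) = |t| * len n := by
  unfold len
  rw [smul_dotProduct, dotProduct_smul, smul_eq_mul, smul_eq_mul, ← mul_assoc,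
    Real.sqrt_mul (mul_self_nonneg t), Real.sqrt_mul_self_eq_abs]

lemma len_nn (n : V) : 0 ≤ len n := Real.sqrt_nonneg _

/-- the derivative of a function with Lipschitz constant one -/
lemma fd_le {g : V → ℝ} (hg : Differentiable ℝ g) (hl : ∀ y z, |g y - g z| ≤ len (y - z))
    (y n : V) : |fderiv ℝ g y n| ≤ len n := by
  have h1 : HasDerivAt (fun t : ℝ => g (y + t • n)) (fderiv ℝ g y n) 0 := by
    have h2 : HasDerivAt (fun t : ℝ => y + t • n) n 0 := by
      simpa using ((hasDerivAt_id (0 : ℝ)).smul_const n).const_add y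
    have h3 : HasFDerivAt g (fderiv ℝ g y) (y + (0 : ℝ) • n) := by
      rw [zero_smul, add_zero]
      exact (hg y).hasFDerivAt
    exact h3.comp_hasDerivAt 0 h2
  have h5 : ‖deriv (fun t : ℝ => g (y + t • n)) 0‖ ≤ len n := by
    refine norm_deriv_le_of_lip' (len_nn n) (Eventually.of_forall fun t => ?_)
    rw [Real.norm_eq_abs, Real.norm_eq_abs, sub_zero, zero_smul, add_zero]
    have h4 := hl (y + t • n) y
    rw [add_sub_cancel_left, len_smul'] at h4
    linarith
  rwa [h1.deriv, Real.norm_eq_abs] at h5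

lemma uu_cd {κ ρ : ℝ} {g : V → ℝ} {x : V} (hg : ContDiff ℝ 1 g)
    (hd : ContDiff ℝ ∞ (ds x ρ)) : ContDiff ℝ 1 (uu κ ρ g x) :=
  (hg.sub contDiff_const).sub (contDiff_const.mul (hd.of_le (by exact_mod_cast le_top)))

lemma uu_fd {κ ρ : ℝ} {g : V → ℝ} {x : V} (hg : ContDiff ℝ 1 g)
    (hd : ContDiff ℝ ∞ (ds x ρ)) (y n : V) : fderiv ℝ (uu κ ρ g x) y n
      = fderiv ℝ g y n - κ / 2 * fderiv ℝ (ds x ρ) y n := by
  have a1 := (hg.differentiable one_ne_zero y).hasFDerivAt
  have a2 := (hd.differentiable (by simp) y).hasFDerivAt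
  have a3 : HasFDerivAt (uu κ ρ g x) _ y := (a1.sub_const (g x)).fun_sub (a2.const_mul (κ / 2))
  rw [a3.fderiv]
  simp only [sub_apply, smul_apply, smul_eq_mul]

lemma ww_cd {κ ρ : ℝ} {g : V → ℝ} {x : V} (hg : ContDiff ℝ 1 g)
    (hd : ContDiff ℝ ∞ (ds x ρ)) : ContDiff ℝ 1 (ww κ ρ g x) :=
  (hg.sub contDiff_const).sub (contDiff_const.mul (hd.of_le (by exact_mod_cast le_top)))

lemma pr_cont (hB : StmBas) {κ ρ R r : ℝ} {x : V} {f m : V → ℝ} {W : V → V} {g : V → ℝ}
    (hρ : 0 < ρ) (h : LF κ R x f m W g) : Continuous (Pool.Agent.Q85.VL.pr κ ρ g x W m r) := by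
  obtain ⟨hsd, hsc, hs'c, -, hsb, hs0, hs1, hs', -, -, hds⟩ := hB
  obtain ⟨hd, hd1, hd2, hd3, hd4, hd5, hd6, hd7⟩ := hds x ρ hρ
  have h1 := uu_cd (κ := κ) h.gs hd
  have h2 := ww_cd (κ := κ) h.gs hd
  have h3 : Continuous fun y => fderiv ℝ (uu κ ρ g x) y (W y) :=
    (h1.continuous_fderiv one_ne_zero).clm_apply h.wd.cont
  have h4 : Continuous (TT κ ρ g x r) := by
    unfold TT
    exact hsc.continuous.comp ((h2.continuous.add continuous_const).div_const _)
  unfold Pool.Agent.Q85.VL.pr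
  refine h4.mul (((hs'c.comp ((h1.continuous.sub continuous_const).div_const _)).div_const _).mul
    (h3.add h.mc))

/-- VL-2 -/
theorem ubV (hB : StmBas) : StmUB := by
  intro κ ρ R r x f m W g hκ hκ1 hρ h hr hrR
  have hpc := pr_cont (r := r) hB hρ h
  obtain ⟨hsd, hsc, hs'c, -, hsb, hs0, hs1, hs', hs0', -, hds⟩ := hB
  obtain ⟨hd, hd1, hd2, hd3, hd4, hd5, hd6, hd7⟩ := hds x ρ hρ
  have hms : ∀ r, MeasurableSet (closedBall x r) := fun r => isClosed_closedBall.measurableSet
  have hfm : Continuous fun y => 2 * f y + m y := (continuous_const.mul h.fc).add h.mc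
  have e1 : 128 / (κ * r) * ∫ y in closedBall x r, (2 * f y + m y)
      = ∫ y in closedBall x R,
        (closedBall x r).indicator (fun y => 128 / (κ * r) * (2 * f y + m y)) y := by
    rw [setIntegral_indicator (hms r), inter_eq_right.2 (closedBall_subset_closedBall hrR),
      integral_const_mul]
  rw [e1]
  unfold AA
  refine setIntegral_mono_on (int_cont hpc x R)
    ((int_cont (continuous_const.mul hfm) x R).indicator (hms r)) (hms R) fun y hy => ?_
  have hf0 : 0 ≤ f y := (len_nn _).trans (h.up y hy)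
  have hm0 := h.m0 y
  have hkr : 0 < κ * r := mul_pos hκ hr
  obtain ⟨s, hs⟩ : ∃ s, s = (uu κ ρ g x y - κ * r / 64) / (κ * r / 64) := ⟨_, rfl⟩
  obtain ⟨s₂, hs₂⟩ : ∃ s, s = (ww κ ρ g x y + κ * r / 8) / (κ * r / 16) := ⟨_, rfl⟩
  have ep : Pool.Agent.Q85.VL.pr κ ρ g x W m r y = stp s₂ * (stp' s / (κ * r / 64) *
      (fderiv ℝ (uu κ ρ g x) y (W y) + m y)) := by
    rw [hs, hs₂]
    rfl
  by_cases hy1 : y ∈ closedBall x r
  · rw [indicator_of_mem hy1, ep]
    have h1 : |fderiv ℝ g y (W y)| ≤ len (W y) := fd_le (h.gs.differentiable one_ne_zero) h.lip y _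
    have h2 := hd7 y (W y)
    have h3 := h.up y hy
    have h4 : fderiv ℝ (uu κ ρ g x) y (W y) ≤ 2 * f y := by
      rw [uu_fd h.gs hd]
      have h5 := (abs_le.1 h1).2
      have h6 := (abs_le.1 h2).1
      have h7 := len_nn (W y)
      nlinarith
    have hb := hsb s
    have hb2 := hsb s₂
    calc stp s₂ * (stp' s / (κ * r / 64) * (fderiv ℝ (uu κ ρ g x) y (W y) + m y))
        ≤ stp s₂ * (stp' s / (κ * r / 64) * (2 * f y + m y)) := by
          have := hb2.1
          have := hb.2.2.1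
          gcongr
      _ ≤ 1 * (2 / (κ * r / 64) * (2 * f y + m y)) := by
          have := hb2.1
          have := hb2.2.1
          have := hb.2.2.1
          have := hb.2.2.2
          gcongr
      _ = 128 / (κ * r) * (2 * f y + m y) := by
          field_simp
          ring
  · rw [indicator_of_notMem hy1, ep]
    by_contra hc
    have h1 : stp' s ≠ 0 := by
      intro h0
      rw [h0] at hc
      simp at hc
    have h2 : stp s₂ ≠ 0 := by
      intro h0
      rw [h0] at hc
      simp at hc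
    have h3 := (hs' s h1).2
    have h4 := hs0' s₂ h2
    rw [hs, div_lt_one (by positivity)] at h3
    rw [hs₂, div_pos_iff_of_pos_right (by positivity)] at h4
    have h5 : uu κ ρ g x y - ww κ ρ g x y = κ / 4 * ds x ρ y := by
      unfold uu ww
      ring
    have h6 := hd4 y
    apply hy1
    rw [mem_closedBall, dist_eq_norm]
    refine h6.trans ?_
    have h7 : κ * ds x ρ y ≤ κ * r := by nlinarith
    exact le_of_mul_le_mul_left h7 hκ

end Pool.Agent.Q129.VL
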