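import Pool.Agent.Q85.VL.Defs
import Pool.Agent.Q151.CC.Double

/-! Project VL (helper85), part VL-11: for an orientation of the vorticity the oriented field is
weakly free of divergence. -/

set_option autoImplicit false

open MeasureTheory Set Metric Filter Topology
open scoped ContDiff
open H459R3.NS Pool.Agent.W268.NS Pool.Agent.Q67.VD

namespace Pool.Agent.Q129.VL

open Pool.Agent.Q85.CC Pool.Agent.Q85.CL Pool.Agent.Q151.CC Pool.Agent.Q85.VL

/-- the oriented field -/
noncomputable def oz (v : V → V) (θ : V → ℝ) (y : V) : V := θ y • vort v y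

lemma th_abs {θ : V → ℝ} (h : ∀ y, θ y = 1 ∨ θ y = -1) (y : V) : |θ y| = 1 := by
  rcases h y with h | h <;> rw [h] <;> simp

lemma oz_contOn {v : V → V} {θ : V → ℝ} {a : V} {R : ℝ} (hv : SM v)
    (h : Orient θ a R (vort v)) : ContinuousOn (oz v θ) (closedBall a R) := by
  intro y hy
  have hwc := vort_cont hv
  by_cases h0 : vort v y = 0
  · have h2 : oz v θ y = 0 := by
      unfold oz
      rw [h0, smul_zero]
    rw [ContinuousWithinAt, h2, tendsto_zero_iff_norm_tendsto_zero]
    have h3 : Tendsto (fun z => ‖vort v z‖) (𝓝[closedBall a R] y) (𝓝 0) := by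
      have := (hwc.norm.tendsto y).mono_left (nhdsWithin_le_nhds (s := closedBall a R))
      rwa [h0, norm_zero] at this
    refine squeeze_zero (fun z => norm_nonneg _) (fun z => ?_) h3
    unfold oz
    rw [norm_smul, Real.norm_eq_abs, th_abs h.1, one_mul]
  · have h1 : ContinuousWithinAt θ {y | ‖y - a‖ ≤ R ∧ vort v y ≠ 0} y := by
      refine h.2 y ⟨?_, h0⟩
      rwa [mem_closedBall, dist_eq_norm] at hy
    have h2 : ContinuousWithinAt θ (closedBall a R) y := by
      refine h1.mono_of_mem_nhdsWithin ?_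
      have h3 : ∀ᶠ z in 𝓝 y, vort v z ≠ 0 := hwc.continuousAt.eventually_ne h0
      filter_upwards [self_mem_nhdsWithin, mem_nhdsWithin_of_mem_nhds h3] with z hz1 hz2
      refine ⟨?_, hz2⟩
      rwa [mem_closedBall, dist_eq_norm] at hz1
    exact h2.smul hwc.continuousWithinAt

/-- near a point of the cube where the vorticity is not zero the orientation is constant -/
lemma th_loc {v : V → V} {θ : V → ℝ} {a : V} {R : ℝ} (hv : SM v)
    (h : Orient θ a R (vort v)) {y : V} (hy : y ∈ closedBall a R) (h0 : vort v y ≠ 0) :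
    ∀ᶠ z in 𝓝 y, z ∈ closedBall a R → θ z = θ y := by
  have hwc := vort_cont hv
  have h1 : ContinuousWithinAt θ {y | ‖y - a‖ ≤ R ∧ vort v y ≠ 0} y := by
    refine h.2 y ⟨?_, h0⟩
    rwa [mem_closedBall, dist_eq_norm] at hy
  have h2 : ∀ᶠ z in 𝓝[{y | ‖y - a‖ ≤ R ∧ vort v y ≠ 0}] y, |θ z - θ y| < 1 := by
    have := h1 (Metric.ball_mem_nhds (θ y) one_pos)
    filter_upwards [this] with z hz
    rwa [mem_preimage, Metric.mem_ball, Real.dist_eq] at hz
  rw [eventually_nhdsWithin_iff] at h2
  have h3 : ∀ᶠ z in 𝓝 y, vort v z ≠ 0 := hwc.continuousAt.eventually_ne h0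
  filter_upwards [h2, h3] with z hz1 hz2 hz3
  rw [mem_closedBall, dist_eq_norm] at hz3
  have h4 := hz1 ⟨hz3, hz2⟩
  rcases h.1 z with e1 | e1 <;> rcases h.1 y with e2 | e2 <;> rw [e1, e2] at h4 ⊢ <;>
    norm_num at h4

/-- the square of the length of the vorticity -/
noncomputable def qq (v : V → V) (y : V) : ℝ :=
  vort v y 0 * vort v y 0 + vort v y 1 * vort v y 1 + vort v y 2 * vort v y 2

lemma qq_nn (v : V → V) (y : V) : 0 ≤ qq v y := by
  unfold qq
  nlinarith [sq_nonneg (vort v y 0), sq_nonneg (vort v y 1), sq_nonneg (vort v y 2)]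

lemma qq_pos {v : V → V} {y : V} (h : vort v y ≠ 0) : 0 < qq v y := by
  refine lt_of_le_of_ne (qq_nn v y) fun h0 => h ?_
  unfold qq at h0
  funext i
  fin_cases i
  · change vort v y 0 = 0
    nlinarith [sq_nonneg (vort v y 0), sq_nonneg (vort v y 1), sq_nonneg (vort v y 2)]
  · change vort v y 1 = 0
    nlinarith [sq_nonneg (vort v y 0), sq_nonneg (vort v y 1), sq_nonneg (vort v y 2)]
  · change vort v y 2 = 0
    nlinarith [sq_nonneg (vort v y 0), sq_nonneg (vort v y 1), sq_nonneg (vort v y 2)]

lemma qq_smooth {v : V → V} (hv : SM v) : ContDiff ℝ 1 (qq v) := by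
  have h := (vort_df hv).smooth
  exact (((h 0).mul (h 0)).add ((h 1).mul (h 1))).add ((h 2).mul (h 2))

lemma co_sq (v : V → V) (y : V) : ‖vort v y‖ ^ 2 ≤ qq v y := by
  have h1 : ‖vort v y‖ ≤ √(qq v y) := by
    rw [pi_norm_le_iff_of_nonneg (Real.sqrt_nonneg _)]
    intro i
    rw [Real.norm_eq_abs]
    apply Real.abs_le_sqrt
    unfold qq
    fin_cases i
    · change vort v y 0 ^ 2 ≤ _
      nlinarith [sq_nonneg (vort v y 1), sq_nonneg (vort v y 2)]
    · change vort v y 1 ^ 2 ≤ _
      nlinarith [sq_nonneg (vort v y 0), sq_nonneg (vort v y 2)]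
    · change vort v y 2 ^ 2 ≤ _
      nlinarith [sq_nonneg (vort v y 0), sq_nonneg (vort v y 1)]
  calc ‖vort v y‖ ^ 2 ≤ √(qq v y) ^ 2 := by gcongr
    _ = _ := Real.sq_sqrt (qq_nn v y)

/-- the bound of the derivative of the square along the field -/
noncomputable def Cb (v : V → V) (y : V) : ℝ :=
  2 * (‖fderiv ℝ (fun z => vort v z 0) y‖ + ‖fderiv ℝ (fun z => vort v z 1) y‖
    + ‖fderiv ℝ (fun z => vort v z 2) y‖)

lemma qq_fd {v : V → V} (hv : SM v) (y w : V) : fderiv ℝ (qq v) y w
    = 2 * (vort v y 0 * fderiv ℝ (fun z => vort v z 0) y w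
      + vort v y 1 * fderiv ℝ (fun z => vort v z 1) y w
      + vort v y 2 * fderiv ℝ (fun z => vort v z 2) y w) := by
  have h := (vort_df hv).smooth
  have a0 := ((h 0).differentiable one_ne_zero y).hasFDerivAt
  have a1 := ((h 1).differentiable one_ne_zero y).hasFDerivAt
  have a2 := ((h 2).differentiable one_ne_zero y).hasFDerivAt
  have a3 : HasFDerivAt (qq v) _ y :=
    ((a0.fun_mul a0).fun_add (a1.fun_mul a1)).fun_add (a2.fun_mul a2)
  rw [a3.fderiv]
  simp only [add_apply, smul_apply, smul_eq_mul]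
  ring

lemma qq_le {v : V → V} (hv : SM v) (y w : V) (hw : ‖w‖ ≤ ‖vort v y‖) :
    |fderiv ℝ (qq v) y w| ≤ Cb v y * qq v y := by
  rw [qq_fd hv]
  have b : ∀ i, |vort v y i * fderiv ℝ (fun z => vort v z i) y w|
      ≤ ‖fderiv ℝ (fun z => vort v z i) y‖ * qq v y := by
    intro i
    rw [abs_mul]
    have h1 : |vort v y i| ≤ ‖vort v y‖ := norm_le_pi_norm (vort v y) i
    have h2 : |fderiv ℝ (fun z => vort v z i) y w| ≤ ‖fderiv ℝ (fun z => vort v z i) y‖ * ‖w‖ := by
      rw [← Real.norm_eq_abs]
      exact ContinuousLinearMap.le_opNorm _ _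
    calc |vort v y i| * |fderiv ℝ (fun z => vort v z i) y w|
        ≤ ‖vort v y‖ * (‖fderiv ℝ (fun z => vort v z i) y‖ * ‖vort v y‖) := by
          gcongr
          exact h2.trans (by gcongr)
      _ = ‖fderiv ℝ (fun z => vort v z i) y‖ * ‖vort v y‖ ^ 2 := by ring
      _ ≤ _ := by
          gcongr
          exact co_sq v y
  rw [abs_mul, abs_two]
  unfold Cb
  have h3 := abs_add_le (vort v y 0 * fderiv ℝ (fun z => vort v z 0) y w
      + vort v y 1 * fderiv ℝ (fun z => vort v z 1) y w)
      (vort v y 2 * fderiv ℝ (fun z => vort v z 2) y w)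
  have h4 := abs_add_le (vort v y 0 * fderiv ℝ (fun z => vort v z 0) y w)
      (vort v y 1 * fderiv ℝ (fun z => vort v z 1) y w)
  nlinarith [b 0, b 1, b 2]

lemma Cb_cont {v : V → V} (hv : SM v) : Continuous (Cb v) := by
  have h := (vort_df hv).smooth
  unfold Cb
  exact continuous_const.mul ((((h 0).continuous_fderiv one_ne_zero).norm.add
    ((h 1).continuous_fderiv one_ne_zero).norm).add ((h 2).continuous_fderiv one_ne_zero).norm)

lemma Cb_nn (v : V → V) (y : V) : 0 ≤ Cb v y := by
  unfold Cb
  positivity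

/-- VL-11 -/
theorem wdV (hB : StmBas) : StmWd := by
  intro v θ a R hv hR hO
  obtain ⟨hsd, hsc, hs'c, -, hsb, hs0, hs1, hs', -, -, -⟩ := hB
  have hwc := vort_cont hv
  have hWc : Continuous fun y => oz v θ (clp a R y) :=
    (oz_contOn hv hO).comp_continuous (clp_cont a R) (clp_mem hR.le a)
  have hWe : ∀ y ∈ closedBall a R, oz v θ (clp a R y) = θ y • vort v y := by
    intro y hy
    rw [clp_eq hR.le hy]
    rfl
  refine ⟨fun y => oz v θ (clp a R y), ⟨hWc, fun F hF hts => ?_⟩, fun y hy => hWe y ?_⟩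
  swap
  · rwa [mem_closedBall, dist_eq_norm]
  obtain ⟨W, hWdef⟩ : ∃ W : V → V, W = fun y => oz v θ (clp a R y) := ⟨_, rfl⟩
  change ∫ y in closedBall a R, fderiv ℝ F y ((fun y => oz v θ (clp a R y)) y) = 0
  rw [← hWdef] at hWc ⊢
  have hWe : ∀ y ∈ closedBall a R, W y = θ y • vort v y := by
    intro y hy
    rw [hWdef]
    exact hWe y hy
  have hms : MeasurableSet (closedBall a R) := isClosed_closedBall.measurableSet
  have hwd := (vort_df hv).wd R a
  have hq := qq_smooth hv
  have hWn : ∀ y ∈ closedBall a R, ‖W y‖ ≤ ‖vort v y‖ := by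
    intro y hy
    rw [hWe y hy, norm_smul, Real.norm_eq_abs, th_abs hO.1, one_mul]
  -- the cut-off near the zeros
  obtain ⟨B, hBd⟩ : ∃ B : ℕ → V → ℝ, B = fun (n : ℕ) y => stp ((n : ℝ) * qq v y - 1) := ⟨_, rfl⟩
  have hBc : ∀ n, ContDiff ℝ 1 (B n) := by
    intro n
    rw [hBd]
    exact hsc.comp ((contDiff_const.mul hq).sub contDiff_const)
  have hBf : ∀ n y, HasFDerivAt (B n)
      ((stp' ((n : ℝ) * qq v y - 1) * n) • fderiv ℝ (qq v) y) y := by
    intro n y
    have a2 := (hq.differentiable one_ne_zero y).hasFDerivAt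
    have a3 := (a2.const_mul (n : ℝ)).sub_const 1
    have a4 := (hsd ((n : ℝ) * qq v y - 1)).comp_hasFDerivAt y a3
    rw [smul_smul] at a4
    rw [hBd]
    exact a4
  have hBz : ∀ n y, vort v y = 0 → ∀ᶠ z in 𝓝 y, B n z = 0 := by
    intro n y hy
    have h1 : ContinuousAt (fun z => (n : ℝ) * qq v z - 1) y :=
      ((continuous_const.mul hq.continuous).sub continuous_const).continuousAt
    have h2 : (n : ℝ) * qq v y - 1 < 0 := by
      have : qq v y = 0 := by
        unfold qq
        rw [hy]
        simp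
      rw [this]
      norm_num
    filter_upwards [h1.eventually_lt continuousAt_const h2] with z hz
    rw [hBd]
    exact hs0 _ hz.le
  -- the product
  have hloc : ∀ n y, y ∈ closedBall a R → vort v y ≠ 0 →
      (fun z => F z * B n z * θ z) =ᶠ[𝓝 y] fun z => F z * B n z * θ y := by
    intro n y hy h0
    filter_upwards [th_loc hv hO hy h0] with z hz
    by_cases hz1 : z ∈ closedBall a R
    · rw [hz hz1]
    · have h3 : F z = 0 := by
        by_contra hc
        exact hz1 (hts (subset_tsupport F hc))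
      rw [h3]
      ring
  have hout : ∀ y, y ∉ closedBall a R → ∀ n,
      (fun z => F z * B n z * θ z) =ᶠ[𝓝 y] fun _ => 0 := by
    intro y hy n
    have h1 : ∀ᶠ z in 𝓝 y, z ∉ closedBall a R :=
      isClosed_closedBall.isOpen_compl.mem_nhds hy
    filter_upwards [h1] with z hz
    have h3 : F z = 0 := by
      by_contra hc
      exact hz (hts (subset_tsupport F hc))
    rw [h3]
    ring
  have hzer : ∀ n y, vort v y = 0 → (fun z => F z * B n z * θ z) =ᶠ[𝓝 y] fun _ => 0 := by
    intro n y hy
    filter_upwards [hBz n y hy] with z hz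
    rw [hz]
    ring
  have hH : ∀ n, ContDiff ℝ 1 fun y => F y * B n y * θ y := by
    intro n
    rw [contDiff_iff_contDiffAt]
    intro y
    by_cases hy : y ∈ closedBall a R
    · by_cases h0 : vort v y = 0
      · exact contDiffAt_const.congr_of_eventuallyEq (hzer n y h0)
      · exact (((hF.mul (hBc n)).mul contDiff_const).contDiffAt).congr_of_eventuallyEq
          (hloc n y hy h0)
    · exact contDiffAt_const.congr_of_eventuallyEq (hout y hy n)
  have hHs : ∀ n, tsupport (fun y => F y * B n y * θ y) ⊆ closedBall a R := by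
    intro n
    refine closure_minimal ?_ isClosed_closedBall
    intro y hy
    rw [Function.mem_support] at hy
    have h3 : F y ≠ 0 := by
      intro hc
      rw [hc] at hy
      simp at hy
    exact hts (subset_tsupport F h3)
  have hHf : ∀ n, ∀ y ∈ closedBall a R, fderiv ℝ (fun y => F y * B n y * θ y) y (vort v y)
      = B n y * fderiv ℝ F y (W y)
        + F y * (stp' ((n : ℝ) * qq v y - 1) * n * fderiv ℝ (qq v) y (W y)) := by
    intro n y hy
    by_cases h0 : vort v y = 0
    · rw [hWe y hy, h0]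
      simp
    · rw [(hloc n y hy h0).fderiv_eq, hWe y hy]
      have a1 := (hF.differentiable one_ne_zero y).hasFDerivAt
      have a4 : HasFDerivAt (fun z => F z * B n z * θ y) _ y :=
        (a1.fun_mul (hBf n y)).mul_const (θ y)
      rw [a4.fderiv]
      simp only [add_apply, smul_apply, smul_eq_mul, map_smul]
      ring
  have cF : Continuous fun y => fderiv ℝ F y (W y) :=
    (hF.continuous_fderiv one_ne_zero).clm_apply hWc
  have cQ : Continuous fun y => fderiv ℝ (qq v) y (W y) :=
    (hq.continuous_fderiv one_ne_zero).clm_apply hWc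
  have cs' : ∀ n : ℕ, Continuous fun y => stp' ((n : ℝ) * qq v y - 1) := fun n =>
    hs'c.comp ((continuous_const.mul hq.continuous).sub continuous_const)
  have c1 : ∀ n, Continuous fun y => B n y * fderiv ℝ F y (W y) := fun n =>
    (hBc n).continuous.mul cF
  have c2 : ∀ n : ℕ, Continuous fun y =>
      F y * (stp' ((n : ℝ) * qq v y - 1) * n * fderiv ℝ (qq v) y (W y)) := fun n =>
    hF.continuous.mul (((cs' n).mul continuous_const).mul cQ)
  have hI : ∀ n, ∫ y in closedBall a R, B n y * fderiv ℝ F y (W y)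
      = -∫ y in closedBall a R,
        F y * (stp' ((n : ℝ) * qq v y - 1) * n * fderiv ℝ (qq v) y (W y)) := by
    intro n
    have h1 := hwd.div _ (hH n) (hHs n)
    rw [setIntegral_congr_fun hms (hHf n),
      integral_add (int_cont (c1 n) a R) (int_cont (c2 n) a R)] at h1
    linarith
  have hL : Tendsto (fun n => ∫ y in closedBall a R, B n y * fderiv ℝ F y (W y)) atTop
      (𝓝 (∫ y in closedBall a R, fderiv ℝ F y (W y))) := by
    refine tendsto_integral_of_dominated_convergence (fun y => |fderiv ℝ F y (W y)|)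
      (fun n => (c1 n).aestronglyMeasurable) (int_cont cF.abs a R) (fun n => ?_) ?_
    · refine Eventually.of_forall fun y => ?_
      rw [Real.norm_eq_abs, abs_mul]
      refine mul_le_of_le_one_left (abs_nonneg _) ?_
      rw [hBd]
      have := hsb ((n : ℝ) * qq v y - 1)
      exact abs_le.2 ⟨by linarith [this.1], this.2.1⟩
    · refine (ae_restrict_iff' hms).2 (Eventually.of_forall fun y hy => ?_)
      by_cases h0 : vort v y = 0
      · rw [hWe y hy, h0]
        simp
      · have h1 := qq_pos h0
        obtain ⟨N, hN⟩ := exists_nat_ge (2 / qq v y)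
        refine tendsto_const_nhds.congr' ?_
        filter_upwards [eventually_ge_atTop N] with n hn
        have h2 : (N : ℝ) ≤ n := by exact_mod_cast hn
        have h3 : 2 / qq v y ≤ n := hN.trans h2
        rw [div_le_iff₀ h1] at h3
        rw [hBd]
        simp only
        rw [hs1 _ (by linarith), one_mul]
  have hJ : Tendsto (fun n : ℕ => ∫ y in closedBall a R,
      F y * (stp' ((n : ℝ) * qq v y - 1) * n * fderiv ℝ (qq v) y (W y))) atTop
      (𝓝 (∫ y in closedBall a R, (0 : ℝ))) := by
    refine tendsto_integral_of_dominated_convergence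
      (fun y => |F y| * (4 * Cb v y)) (fun n => (c2 n).aestronglyMeasurable)
      (int_cont (hF.continuous.abs.mul (continuous_const.mul (Cb_cont hv))) a R)
      (fun n => ?_) ?_
    · refine (ae_restrict_iff' hms).2 (Eventually.of_forall fun y hy => ?_)
      rw [Real.norm_eq_abs, abs_mul]
      refine mul_le_mul_of_nonneg_left ?_ (abs_nonneg _)
      have hb := hsb ((n : ℝ) * qq v y - 1)
      by_cases h0 : stp' ((n : ℝ) * qq v y - 1) = 0
      · rw [h0]
        simp only [zero_mul, abs_zero]
        have := Cb_nn v y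
        positivity
      · have h1 := hs' _ h0
        have h2 := qq_le hv y (W y) (hWn y hy)
        have h3 := Cb_nn v y
        have h4 := qq_nn v y
        rw [abs_mul, abs_mul, abs_of_nonneg hb.2.2.1, Nat.abs_cast]
        calc stp' ((n : ℝ) * qq v y - 1) * n * |fderiv ℝ (qq v) y (W y)|
            ≤ 2 * n * (Cb v y * qq v y) := by
              have := hb.2.2.2
              gcongr
          _ = 2 * Cb v y * (n * qq v y) := by ring
          _ ≤ 2 * Cb v y * 2 := by
              gcongr
              linarith [h1.2]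
          _ = _ := by ring
    · refine (ae_restrict_iff' hms).2 (Eventually.of_forall fun y hy => ?_)
      by_cases h0 : vort v y = 0
      · rw [hWe y hy, h0]
        simp
      · have h1 := qq_pos h0
        obtain ⟨N, hN⟩ := exists_nat_ge (2 / qq v y)
        refine tendsto_const_nhds.congr' ?_
        filter_upwards [eventually_ge_atTop N] with n hn
        have h2 : (N : ℝ) ≤ n := by exact_mod_cast hn
        have h3 : 2 / qq v y ≤ n := hN.trans h2
        rw [div_le_iff₀ h1] at h3
        have h4 : stp' ((n : ℝ) * qq v y - 1) = 0 := by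
          by_contra hc
          have := hs' _ hc
          linarith [this.2]
        rw [h4]
        ring
  rw [integral_zero] at hJ
  have h3 : Tendsto (fun n => ∫ y in closedBall a R, B n y * fderiv ℝ F y (W y)) atTop
      (𝓝 (-0)) := by
    simp_rw [hI]
    exact hJ.neg
  rw [neg_zero] at h3
  exact tendsto_nhds_unique hL h3

end Pool.Agent.Q129.VL
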